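import Pool.Agent.Helper91.Gen

set_option autoImplicit false

namespace Pool.Agent.Helper91.Eig

open Finset Pool.Agent.Helper91.Gen

theorem inner_sum {ι : Type} [Fintype ι] (f g : EuclideanSpace ℝ ι) :
    inner ℝ f g = ∑ j, f.ofLp j * g.ofLp j := by
  rw [PiLp.inner_apply]
  apply Finset.sum_congr rfl; intro j _
  simp [mul_comm]

/-- there are `k` orthonormal vectors in dimension `k+1` orthogonal to a given vector -/
theorem exists_orth (k : ℕ) (s : Fin (k + 1) → ℝ) : ∃ α : Fin k → Fin (k + 1) → ℝ,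
    (∀ a b, ∑ j, α a j * α b j = if a = b then 1 else 0) ∧ ∀ a, ∑ j, α a j * s j = 0 := by
  let s' : EuclideanSpace ℝ (Fin (k + 1)) := WithLp.toLp 2 s
  let K : Submodule ℝ (EuclideanSpace ℝ (Fin (k + 1))) := (Submodule.span ℝ {s'})ᗮ
  have hK : k ≤ Module.finrank ℝ K := by
    have h1 := (Submodule.span ℝ {s'}).finrank_add_finrank_orthogonal
    have h2 : Module.finrank ℝ (Submodule.span ℝ {s'}) ≤ 1 := by
      have := finrank_span_le_card (R := ℝ) ({s'} : Set (EuclideanSpace ℝ (Fin (k + 1))))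
      simpa using this
    have h3 : Module.finrank ℝ (EuclideanSpace ℝ (Fin (k + 1))) = k + 1 := by simp
    simp only [K]
    omega
  let b := stdOrthonormalBasis ℝ K
  refine ⟨fun a j => ((b (Fin.castLE hK a) : K) : EuclideanSpace ℝ (Fin (k + 1))).ofLp j, ?_, ?_⟩
  · intro a c
    have h := orthonormal_iff_ite.mp b.orthonormal (Fin.castLE hK a) (Fin.castLE hK c)
    rw [Submodule.coe_inner, inner_sum] at h
    have h2 : (if Fin.castLE hK a = Fin.castLE hK c then (1 : ℝ) else 0) = if a = c then 1 else 0 := by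
      by_cases hac : a = c
      · simp [hac]
      · have : Fin.castLE hK a ≠ Fin.castLE hK c := fun h => hac (Fin.castLE_injective hK h)
        simp [hac]
    rw [h2] at h
    exact h
  · intro a
    have hmem : ((b (Fin.castLE hK a) : K) : EuclideanSpace ℝ (Fin (k + 1))) ∈ K := (b (Fin.castLE hK a)).2
    have h := (Submodule.mem_orthogonal_singleton_iff_inner_left.mp hmem)
    rw [inner_sum] at h
    exact h

variable {V : Type} [Fintype V] [DecidableEq V]

/-- eigenvector belonging to the j-th largest eigenvalue -/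
noncomputable def ev {A : Matrix V V ℝ} (hA : A.IsHermitian) (j : Fin (Fintype.card V)) : V → ℝ :=
  (hA.eigenvectorBasis ((Fintype.equivOfCardEq (Fintype.card_fin _)) j)).ofLp

theorem ev_orth {A : Matrix V V ℝ} (hA : A.IsHermitian) (j l : Fin (Fintype.card V)) :
    ∑ x, ev hA j x * ev hA l x = if j = l then 1 else 0 := by
  have h := orthonormal_iff_ite.mp hA.eigenvectorBasis.orthonormal
    ((Fintype.equivOfCardEq (Fintype.card_fin _)) j) ((Fintype.equivOfCardEq (Fintype.card_fin _)) l)
  rw [PiLp.inner_apply] at h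
  have h2 : ∑ x, ev hA j x * ev hA l x = ∑ x, inner ℝ
    ((hA.eigenvectorBasis ((Fintype.equivOfCardEq (Fintype.card_fin _)) j)).ofLp x)
    ((hA.eigenvectorBasis ((Fintype.equivOfCardEq (Fintype.card_fin _)) l)).ofLp x) := by
    apply Finset.sum_congr rfl; intro x _
    simp [ev, mul_comm]
  rw [h2, h]
  simp

theorem ev_eig {A : Matrix V V ℝ} (hA : A.IsHermitian) (j : Fin (Fintype.card V)) (x : V) :
    ∑ y, A x y * ev hA j y = hA.eigenvalues₀ j * ev hA j x := by
  have h := congrFun (hA.mulVec_eigenvectorBasis ((Fintype.equivOfCardEq (Fintype.card_fin _)) j)) x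
  have h2 : hA.eigenvalues ((Fintype.equivOfCardEq (Fintype.card_fin _)) j) = hA.eigenvalues₀ j := by
    simp [Matrix.IsHermitian.eigenvalues]
  rw [h2] at h
  simpa [Matrix.mulVec, dotProduct, ev] using h

/-- expansion of a vector in the eigenbasis -/
theorem ev_expand {A : Matrix V V ℝ} (hA : A.IsHermitian) (x : V → ℝ) (u : V) :
    x u = ∑ j, (∑ v, ev hA j v * x v) * ev hA j u := by
  let e := Fintype.equivOfCardEq (Fintype.card_fin (Fintype.card V)) (α := Fin (Fintype.card V)) (β := V)
  have h := hA.eigenvectorBasis.sum_repr' (WithLp.toLp 2 x)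
  have h2 := congrArg (fun z => z.ofLp u) h
  simp only [WithLp.ofLp_sum, Finset.sum_apply, WithLp.ofLp_smul, Pi.smul_apply, smul_eq_mul] at h2
  rw [← h2]
  rw [← Equiv.sum_comp (Fintype.equivOfCardEq (Fintype.card_fin (Fintype.card V)))]
  apply Finset.sum_congr rfl; intro j _
  congr 1
  rw [PiLp.inner_apply]
  apply Finset.sum_congr rfl; intro v _
  simp [ev, mul_comm]

/-- quadratic form -/
def qf (A : Matrix V V ℝ) (x : V → ℝ) : ℝ := ∑ u, ∑ v, A u v * (x u * x v)

omit [DecidableEq V] in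
theorem qf_eq (A : Matrix V V ℝ) (x : V → ℝ) : qf A x = ∑ u, x u * ∑ v, A u v * x v := by
  unfold qf
  apply Finset.sum_congr rfl; intro u _
  rw [Finset.mul_sum]
  apply Finset.sum_congr rfl; intro v _; ring

/-- a combination of eigenvectors -/
noncomputable def comb {A : Matrix V V ℝ} (hA : A.IsHermitian) {m : ℕ} (hm : m ≤ Fintype.card V)
    (α : Fin m → ℝ) (u : V) : ℝ := ∑ j, α j * ev hA (Fin.castLE hm j) u

theorem comb_inner {A : Matrix V V ℝ} (hA : A.IsHermitian) {m : ℕ} (hm : m ≤ Fintype.card V)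
    (α β : Fin m → ℝ) : ∑ u, comb hA hm α u * comb hA hm β u = ∑ j, α j * β j := by
  have : ∀ u, comb hA hm α u * comb hA hm β u =
      ∑ j, ∑ l, α j * β l * (ev hA (Fin.castLE hm j) u * ev hA (Fin.castLE hm l) u) := by
    intro u
    simp only [comb]
    rw [Finset.sum_mul_sum]
    apply Finset.sum_congr rfl; intro j _
    apply Finset.sum_congr rfl; intro l _
    ring
  simp only [this]
  rw [Finset.sum_comm]
  apply Finset.sum_congr rfl; intro j _
  rw [Finset.sum_comm]
  simp only [← Finset.mul_sum, ev_orth]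
  have hinj : ∀ l : Fin m, (Fin.castLE hm j = Fin.castLE hm l) ↔ j = l := by
    intro l
    exact ⟨fun h => Fin.castLE_injective hm h, fun h => by rw [h]⟩
  simp only [hinj]
  simp

theorem comb_qf {A : Matrix V V ℝ} (hA : A.IsHermitian) {m : ℕ} (hm : m ≤ Fintype.card V)
    (α : Fin m → ℝ) : qf A (comb hA hm α) = ∑ j, α j ^ 2 * hA.eigenvalues₀ (Fin.castLE hm j) := by
  rw [qf_eq]
  have h1 : ∀ u, ∑ v, A u v * comb hA hm α v =
      comb hA hm (fun j => α j * hA.eigenvalues₀ (Fin.castLE hm j)) u := by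
    intro u
    simp only [comb, Finset.mul_sum]
    rw [Finset.sum_comm]
    apply Finset.sum_congr rfl; intro j _
    have : ∑ v, A u v * (α j * ev hA (Fin.castLE hm j) v) = α j * ∑ v, A u v * ev hA (Fin.castLE hm j) v := by
      rw [Finset.mul_sum]
      apply Finset.sum_congr rfl; intro v _; ring
    rw [this, ev_eig]; ring
  simp only [h1]
  rw [comb_inner]
  apply Finset.sum_congr rfl; intro j _; ring

/-- inside the span of the top `k+1` eigenvectors there are `k` orthonormal vectors orthogonal to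
the constants, each with Rayleigh quotient at least the `(k+1)`-st eigenvalue -/
theorem top_space {A : Matrix V V ℝ} (hA : A.IsHermitian) (k : ℕ) (hk : k < Fintype.card V) :
    ∃ x : Fin k → V → ℝ, (∀ a b, ∑ i, x a i * x b i = if a = b then 1 else 0) ∧
      (∀ a, ∑ i, x a i = 0) ∧ ∀ a, hA.eigenvalues₀ ⟨k, hk⟩ ≤ qf A (x a) := by
  obtain ⟨α, h1, h2⟩ := exists_orth k (fun j => ∑ u, ev hA (Fin.castLE (Nat.succ_le_of_lt hk) j) u)
  refine ⟨fun a => comb hA (Nat.succ_le_of_lt hk) (α a), ?_, ?_, ?_⟩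
  · intro a b
    rw [comb_inner, h1]
  · intro a
    simp only [comb]
    rw [Finset.sum_comm]
    simp only [← Finset.mul_sum]
    exact h2 a
  · intro a
    rw [comb_qf]
    have h3 : ∑ j, α a j ^ 2 = 1 := by
      have := h1 a a
      simpa [sq] using this
    calc hA.eigenvalues₀ ⟨k, hk⟩ = ∑ j, α a j ^ 2 * hA.eigenvalues₀ ⟨k, hk⟩ := by
          rw [← Finset.sum_mul, h3, one_mul]
      _ ≤ _ := by
          apply Finset.sum_le_sum; intro j _
          apply mul_le_mul_of_nonneg_left _ (sq_nonneg _)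
          apply hA.eigenvalues₀_antitone
          rw [Fin.le_def]
          simp only [Fin.val_castLE]
          omega

/-- min-max lower bound -/
theorem low_bound {A : Matrix V V ℝ} (hA : A.IsHermitian) (k : ℕ) (hk : k < Fintype.card V) (μ : ℝ)
    (w : Fin (k + 1) → V → ℝ)
    (hw : ∀ c : Fin (k + 1) → ℝ, (∀ u, ∑ a, c a * w a u = 0) → c = 0)
    (hq : ∀ c : Fin (k + 1) → ℝ, μ * ∑ u, (∑ a, c a * w a u) ^ 2 ≤ qf A (fun u => ∑ a, c a * w a u)) :
    μ ≤ hA.eigenvalues₀ ⟨k, hk⟩ := by
  by_contra hcon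
  push Not at hcon
  let Φ : (Fin (k + 1) → ℝ) →ₗ[ℝ] (Fin k → ℝ) :=
    { toFun := fun c j => ∑ u, ev hA (Fin.castLE hk.le j) u * ∑ a, c a * w a u
      map_add' := by
        intro c d; ext j
        simp only [Pi.add_apply, add_mul, Finset.sum_add_distrib, mul_add]
      map_smul' := by
        intro r c; ext j
        simp only [Pi.smul_apply, smul_eq_mul, RingHom.id_apply, Finset.mul_sum]
        apply Finset.sum_congr rfl; intro u _
        apply Finset.sum_congr rfl; intro a _
        ring }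
  have hker : LinearMap.ker Φ ≠ ⊥ := by
    apply LinearMap.ker_ne_bot_of_finrank_lt
    simp
  obtain ⟨c, hc, hc0⟩ := (Submodule.ne_bot_iff _).mp hker
  have hΦ : Φ c = 0 := LinearMap.mem_ker.mp hc
  set x : V → ℝ := fun u => ∑ a, c a * w a u with hx
  have hxne : 0 < ∑ u, x u ^ 2 := by
    rcases (Finset.sum_nonneg fun u (_ : u ∈ Finset.univ) => sq_nonneg (x u)).lt_or_eq with h | h
    · exact h
    · exfalso
      apply hc0
      apply hw c
      intro u
      have := (Finset.sum_eq_zero_iff_of_nonneg (fun u _ => sq_nonneg (x u))).mp h.symm u (Finset.mem_univ u)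
      exact pow_eq_zero_iff (two_ne_zero) |>.mp this
  -- expansion
  let g : Fin (Fintype.card V) → ℝ := fun j => ∑ v, ev hA j v * x v
  have hg0 : ∀ j : Fin (Fintype.card V), j.val < k → g j = 0 := by
    intro j hj
    have := congrFun hΦ ⟨j.val, hj⟩
    exact this
  have hxc : x = comb hA le_rfl g := by
    funext u
    rw [ev_expand hA x u]
    simp only [comb, g, Fin.castLE_rfl, id]
  have hQ : qf A x ≤ hA.eigenvalues₀ ⟨k, hk⟩ * ∑ u, x u ^ 2 := by
    have e1 : ∑ u, x u ^ 2 = ∑ j, g j * g j := by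
      rw [← comb_inner hA le_rfl g g, ← hxc]
      simp only [sq]
    rw [e1]
    conv_lhs => rw [hxc, comb_qf]
    rw [Finset.mul_sum]
    apply Finset.sum_le_sum; intro j _
    by_cases hj : j.val < k
    · rw [hg0 j hj]; simp
    · have : hA.eigenvalues₀ j ≤ hA.eigenvalues₀ ⟨k, hk⟩ := by
        apply hA.eigenvalues₀_antitone
        rw [Fin.le_def]; simp only; omega
      simp only [Fin.castLE_rfl, id]
      nlinarith [sq_nonneg (g j), mul_le_mul_of_nonneg_left this (sq_nonneg (g j))]
  have h2 := hq c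
  have h3 : μ * ∑ u, x u ^ 2 ≤ hA.eigenvalues₀ ⟨k, hk⟩ * ∑ u, x u ^ 2 := h2.trans hQ
  have := (mul_lt_mul_of_pos_right hcon hxne)
  linarith

end Pool.Agent.Helper91.Eig
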