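import Mathlib

set_option autoImplicit false

namespace Pool.Agent.Helper91.Gen

open Finset

variable {V : Type} [Fintype V] {k : ℕ}

/-- Kronecker delta as a real number -/
def dl (a b : Fin k) : ℝ := if a = b then 1 else 0

theorem dl_sum (a : Fin k) (g : Fin k → ℝ) : ∑ b, dl a b * g b = g a := by
  simp [dl]

theorem dl_self (a : Fin k) : dl a a = 1 := by simp [dl]

theorem dl_sq (a b : Fin k) : dl a b * dl a b = dl a b := by
  by_cases h : a = b <;> simp [dl, h]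

theorem S1 (f : Fin k → Fin k → Fin k → Fin k → ℝ) :
    ∑ a, ∑ b, ∑ c, ∑ d, dl a b * dl c d * f a b c d = ∑ a, ∑ c, f a a c c := by
  have : ∀ a b, ∑ c, ∑ d, dl a b * dl c d * f a b c d = dl a b * ∑ c, f a b c c := by
    intro a b
    rw [Finset.mul_sum]
    apply Finset.sum_congr rfl; intro c _
    have := dl_sum c (fun d => f a b c d)
    rw [← this, Finset.mul_sum]
    apply Finset.sum_congr rfl; intro d _; ring
  simp only [this]
  apply Finset.sum_congr rfl; intro a _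
  exact dl_sum a (fun b => ∑ c, f a b c c)

theorem S2 (f : Fin k → Fin k → Fin k → Fin k → ℝ) :
    ∑ a, ∑ b, ∑ c, ∑ d, dl a c * dl b d * f a b c d = ∑ a, ∑ b, f a b a b := by
  apply Finset.sum_congr rfl; intro a _
  apply Finset.sum_congr rfl; intro b _
  have : ∀ c, ∑ d, dl a c * dl b d * f a b c d = dl a c * f a b c b := by
    intro c
    have := dl_sum b (fun d => f a b c d)
    rw [← this, Finset.mul_sum]
    apply Finset.sum_congr rfl; intro d _; ring
  simp only [this]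
  exact dl_sum a (fun c => f a b c b)

theorem S3 (f : Fin k → Fin k → Fin k → Fin k → ℝ) :
    ∑ a, ∑ b, ∑ c, ∑ d, dl a d * dl b c * f a b c d = ∑ a, ∑ b, f a b b a := by
  apply Finset.sum_congr rfl; intro a _
  apply Finset.sum_congr rfl; intro b _
  have : ∀ c, ∑ d, dl a d * dl b c * f a b c d = dl b c * f a b c a := by
    intro c
    have := dl_sum a (fun d => f a b c d)
    rw [← this, Finset.mul_sum]
    apply Finset.sum_congr rfl; intro d _; ring
  simp only [this]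
  exact dl_sum b (fun c => f a b c a)

/-- symmetrised product of deltas -/
def D4 (a b c d : Fin k) : ℝ := dl a b * dl c d + dl a c * dl b d + dl a d * dl b c

theorem D4_sum (f : Fin k → Fin k → Fin k → Fin k → ℝ) :
    ∑ a, ∑ b, ∑ c, ∑ d, D4 a b c d * f a b c d =
      ∑ a, ∑ c, f a a c c + ∑ a, ∑ b, f a b a b + ∑ a, ∑ b, f a b b a := by
  rw [← S1, ← S2, ← S3]
  simp only [D4, add_mul, Finset.sum_add_distrib]

theorem D4_form (w : Fin k → ℝ) :
    ∑ a, ∑ b, ∑ c, ∑ d, D4 a b c d * (w a * w b * w c * w d) = 3 * (∑ a, w a ^ 2) ^ 2 := by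
  rw [D4_sum]
  have e : (∑ a, w a ^ 2) ^ 2 = ∑ a, ∑ c, w a ^ 2 * w c ^ 2 := by
    rw [sq, Finset.sum_mul_sum]
  rw [e]
  have e1 : ∀ a c, w a * w a * w c * w c = w a ^ 2 * w c ^ 2 := by intro a c; ring
  have e2 : ∀ a c, w a * w c * w a * w c = w a ^ 2 * w c ^ 2 := by intro a c; ring
  have e3 : ∀ a c, w a * w c * w c * w a = w a ^ 2 * w c ^ 2 := by intro a c; ring
  simp only [e1, e2, e3]
  ring

theorem D4_norm : ∑ a : Fin k, ∑ b : Fin k, ∑ c : Fin k, ∑ d : Fin k, D4 a b c d * D4 a b c d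
    = 3 * ((k : ℝ) * (k + 2)) := by
  rw [D4_sum]
  have c1 : ∑ a : Fin k, ∑ b : Fin k, dl a b = (k : ℝ) := by
    have : ∀ a : Fin k, ∑ b : Fin k, dl a b = 1 := by
      intro a
      simpa using dl_sum a (fun _ => (1 : ℝ))
    simp [this]
  have symm : ∀ a b : Fin k, dl b a = dl a b := by
    intro a b; simp [dl, eq_comm]
  have e1 : ∀ a c : Fin k, D4 a a c c = 1 + 2 * dl a c := by
    intro a c; simp only [D4, dl_self, dl_sq]; ring
  have e2 : ∀ a c : Fin k, D4 a c a c = 1 + 2 * dl a c := by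
    intro a c; simp only [D4, dl_self, symm c a]; simp only [dl_sq, symm a c]; ring
  have e3 : ∀ a c : Fin k, D4 a c c a = 1 + 2 * dl a c := by
    intro a c; simp only [D4, dl_self, symm a c]; simp only [dl_sq]; ring
  simp only [e1, e2, e3, Finset.sum_add_distrib, ← Finset.mul_sum, c1]
  simp
  ring

theorem swap4 (f : Fin k → Fin k → Fin k → Fin k → V → ℝ) :
    ∑ a, ∑ b, ∑ c, ∑ d, ∑ i, f a b c d i = ∑ i, ∑ a, ∑ b, ∑ c, ∑ d, f a b c d i := by
  calc ∑ a, ∑ b, ∑ c, ∑ d, ∑ i, f a b c d i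
      = ∑ a, ∑ b, ∑ c, ∑ i, ∑ d, f a b c d i :=
        Finset.sum_congr rfl fun a _ => Finset.sum_congr rfl fun b _ =>
          Finset.sum_congr rfl fun c _ => Finset.sum_comm
    _ = ∑ a, ∑ b, ∑ i, ∑ c, ∑ d, f a b c d i :=
        Finset.sum_congr rfl fun a _ => Finset.sum_congr rfl fun b _ => Finset.sum_comm
    _ = ∑ a, ∑ i, ∑ b, ∑ c, ∑ d, f a b c d i :=
        Finset.sum_congr rfl fun a _ => Finset.sum_comm
    _ = ∑ i, ∑ a, ∑ b, ∑ c, ∑ d, f a b c d i := Finset.sum_comm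

/-- the fourth moment bound for a weighted system of unit vectors in dimension `k` -/
theorem fourth (r : V → ℝ) (y : V → Fin k → ℝ) (hk : 0 < k)
    (hy : ∀ i, r i ≠ 0 → ∑ a, y i a ^ 2 = 1) :
    3 / ((k : ℝ) * (k + 2)) * (∑ i, r i) ^ 2 ≤
      ∑ i, ∑ j, r i * r j * (∑ a, y i a * y j a) ^ 4 := by
  classical
  have hkpos : (0 : ℝ) < k := by exact_mod_cast hk
  let Z : Fin k → Fin k → Fin k → Fin k → ℝ := fun a b c d =>
    ∑ i, r i * (y i a * y i b * y i c * y i d)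
  set p : ℝ := (∑ i, r i) / (k * (k + 2)) with hp
  have hZ2 : ∑ a, ∑ b, ∑ c, ∑ d, Z a b c d * Z a b c d =
      ∑ i, ∑ j, r i * r j * (∑ a, y i a * y j a) ^ 4 := by
    have h4 : ∀ i j, (∑ a, y i a * y j a) ^ 4 = ∑ a, ∑ b, ∑ c, ∑ d,
        (y i a * y j a) * ((y i b * y j b) * ((y i c * y j c) * (y i d * y j d))) := by
      intro i j
      simp only [← Finset.mul_sum]
      simp only [← Finset.sum_mul]
      ring
    have hsq : ∀ a b c d, Z a b c d * Z a b c d = ∑ i, ∑ j, r i * r j *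
        ((y i a * y j a) * ((y i b * y j b) * ((y i c * y j c) * (y i d * y j d)))) := by
      intro a b c d
      simp only [Z]
      rw [Finset.sum_mul_sum]
      apply Finset.sum_congr rfl; intro i _
      apply Finset.sum_congr rfl; intro j _
      ring
    simp only [hsq]
    rw [swap4]
    apply Finset.sum_congr rfl; intro i _
    rw [swap4]
    apply Finset.sum_congr rfl; intro j _
    rw [h4]
    simp only [Finset.mul_sum]
  have hZD : ∑ a, ∑ b, ∑ c, ∑ d, D4 a b c d * Z a b c d = 3 * ∑ i, r i := by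
    have h1 : ∀ a b c d, D4 a b c d * Z a b c d =
        ∑ i, r i * (D4 a b c d * (y i a * y i b * y i c * y i d)) := by
      intro a b c d
      simp only [Z, Finset.mul_sum]
      apply Finset.sum_congr rfl; intro i _; ring
    simp only [h1]
    rw [swap4, Finset.mul_sum]
    apply Finset.sum_congr rfl; intro i _
    simp only [← Finset.mul_sum]
    rw [D4_form]
    by_cases h : r i = 0
    · simp [h]
    · rw [hy i h]; ring
  have h0 : 0 ≤ ∑ a, ∑ b, ∑ c, ∑ d, (Z a b c d - p * D4 a b c d) ^ 2 :=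
    Finset.sum_nonneg fun a _ => Finset.sum_nonneg fun b _ => Finset.sum_nonneg fun c _ =>
      Finset.sum_nonneg fun d _ => sq_nonneg _
  have h1 : ∑ a, ∑ b, ∑ c, ∑ d, (Z a b c d - p * D4 a b c d) ^ 2 =
      ∑ a, ∑ b, ∑ c, ∑ d, Z a b c d * Z a b c d
      - 2 * p * (∑ a, ∑ b, ∑ c, ∑ d, D4 a b c d * Z a b c d)
      + p ^ 2 * ∑ a : Fin k, ∑ b : Fin k, ∑ c : Fin k, ∑ d : Fin k, D4 a b c d * D4 a b c d := by
    simp only [Finset.mul_sum, ← Finset.sum_sub_distrib, ← Finset.sum_add_distrib]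
    apply Finset.sum_congr rfl; intro a _
    apply Finset.sum_congr rfl; intro b _
    apply Finset.sum_congr rfl; intro c _
    apply Finset.sum_congr rfl; intro d _
    ring
  rw [h1, hZ2, hZD, D4_norm] at h0
  have e : 2 * p * (3 * ∑ i, r i) - p ^ 2 * (3 * ((k : ℝ) * (k + 2))) =
      3 / ((k : ℝ) * (k + 2)) * (∑ i, r i) ^ 2 := by
    rw [hp]
    field_simp
    ring
  linarith

/-- pointwise quartic majorant of the absolute value -/
theorem quartic (a s : ℝ) (ha : 0 < a) (hs : s ≤ 1) (hs0 : 0 ≤ s) :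
    s ≤ a * (1 + 2 * a) / (2 * (1 + a) ^ 2) + (3 * a ^ 2 + 2 * a + 1) / (2 * a * (1 + a) ^ 2) * s ^ 2
      - 1 / (2 * a * (1 + a) ^ 2) * s ^ 4 := by
  have h3 : 0 ≤ (1 - s) * (s + 1 + 2 * a) * (s - a) ^ 2 :=
    mul_nonneg (mul_nonneg (by linarith) (by linarith)) (sq_nonneg _)
  have hD : 0 < 2 * a * (1 + a) ^ 2 := by positivity
  have e : a * (1 + 2 * a) / (2 * (1 + a) ^ 2) + (3 * a ^ 2 + 2 * a + 1) / (2 * a * (1 + a) ^ 2) * s ^ 2
      - 1 / (2 * a * (1 + a) ^ 2) * s ^ 4 - s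
      = ((1 - s) * (s + 1 + 2 * a) * (s - a) ^ 2) / (2 * a * (1 + a) ^ 2) := by
    field_simp
    ring
  have : 0 ≤ ((1 - s) * (s + 1 + 2 * a) * (s - a) ^ 2) / (2 * a * (1 + a) ^ 2) :=
    div_nonneg h3 hD.le
  linarith

/-- the entries of a rank `k` orthogonal projection have absolute sum at most
`(1+2a)(1-a)/(a(1+a))` times the order, where `a = 1/sqrt(k+2)` -/
theorem abs_sum (x : Fin k → V → ℝ) (hk : 2 ≤ k)
    (hx : ∀ a b, ∑ i, x a i * x b i = if a = b then 1 else 0) (q : ℝ) (hq : 0 < q)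
    (hq2 : q ^ 2 * (k + 2) = 1) :
    ∑ i, ∑ j, |∑ a, x a i * x a j| ≤ (1 + 2 * q) * (1 - q) / (q * (1 + q)) * (Fintype.card V : ℝ) := by
  classical
  have hkpos : (0 : ℝ) < k := by exact_mod_cast (by omega : 0 < k)
  have hk2 : (2 : ℝ) ≤ k := by exact_mod_cast hk
  set n : ℝ := (Fintype.card V : ℝ) with hn
  have hn0 : 0 ≤ n := Nat.cast_nonneg _
  let P : V → V → ℝ := fun i j => ∑ a, x a i * x a j
  let r : V → ℝ := fun i => Real.sqrt (∑ a, x a i ^ 2)
  let y : V → Fin k → ℝ := fun i a => x a i / r i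
  let t : V → V → ℝ := fun i j => ∑ a, y i a * y j a
  have hr0 : ∀ i, 0 ≤ r i := fun i => Real.sqrt_nonneg _
  have hr2 : ∀ i, r i ^ 2 = ∑ a, x a i ^ 2 := fun i => Real.sq_sqrt (Finset.sum_nonneg fun a _ => sq_nonneg _)
  have hz : ∀ i, r i = 0 → ∀ a, x a i = 0 := by
    intro i h a
    have h2 := hr2 i
    rw [h] at h2
    have h3 : ∑ a, x a i ^ 2 = 0 := by linarith [h2, (by norm_num : (0 : ℝ) ^ 2 = 0)]
    have h4 := (Finset.sum_eq_zero_iff_of_nonneg (fun a _ => sq_nonneg (x a i))).mp h3 a (Finset.mem_univ a)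
    exact pow_eq_zero_iff (two_ne_zero) |>.mp h4
  have hry : ∀ i a, r i * y i a = x a i := by
    intro i a
    by_cases h : r i = 0
    · rw [h, hz i h a]; ring
    · simp only [y]; field_simp
  have hunit : ∀ i, r i ≠ 0 → ∑ a, y i a ^ 2 = 1 := by
    intro i h
    have h2 := hr2 i
    have h3 : ∑ a, x a i ^ 2 = r i ^ 2 * ∑ a, y i a ^ 2 := by
      rw [Finset.mul_sum]
      apply Finset.sum_congr rfl; intro a _
      rw [← hry i a]; ring
    rw [h3] at h2
    have h4 : r i ^ 2 * ∑ a, y i a ^ 2 = r i ^ 2 * 1 := by linarith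
    exact mul_left_cancel₀ (pow_ne_zero 2 h) h4
  have hyle : ∀ i, ∑ a, y i a ^ 2 ≤ 1 := by
    intro i
    by_cases h : r i = 0
    · have : ∀ a, y i a = 0 := by intro a; simp [y, h]
      simp [this]
    · exact (hunit i h).le
  have hPt : ∀ i j, P i j = r i * r j * t i j := by
    intro i j
    simp only [P, t]
    rw [Finset.mul_sum]
    apply Finset.sum_congr rfl; intro a _
    rw [← hry i a, ← hry j a]; ring
  have ht1 : ∀ i j, |t i j| ≤ 1 := by
    intro i j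
    have h := Finset.sum_mul_sq_le_sq_mul_sq Finset.univ (y i) (y j)
    have h2 : (t i j) ^ 2 ≤ 1 := by
      refine h.trans ?_
      have h3 : 0 ≤ ∑ a, y j a ^ 2 := Finset.sum_nonneg fun a _ => sq_nonneg _
      nlinarith [hyle i, hyle j, h3, Finset.sum_nonneg fun (a : Fin k) (_ : a ∈ Finset.univ) => sq_nonneg (y i a)]
    exact abs_le_one_iff_mul_self_le_one.mpr (by nlinarith)
  -- P is symmetric and idempotent
  have hPs : ∀ i j, P i j = P j i := by
    intro i j; simp only [P]; apply Finset.sum_congr rfl; intro a _; ring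
  have hPP : ∀ i, ∑ j, P i j ^ 2 = r i ^ 2 := by
    intro i
    have h1 : ∀ j, P i j ^ 2 = ∑ a, ∑ b, (x a i * x b i) * (x a j * x b j) := by
      intro j
      rw [sq]; simp only [P]; rw [Finset.sum_mul_sum]
      apply Finset.sum_congr rfl; intro a _
      apply Finset.sum_congr rfl; intro b _
      ring
    simp only [h1]
    rw [Finset.sum_comm]
    have h2 : ∀ a, ∑ j, ∑ b, (x a i * x b i) * (x a j * x b j) = x a i ^ 2 := by
      intro a
      rw [Finset.sum_comm]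
      simp only [← Finset.mul_sum, hx]
      simp [sq]
    simp only [h2]
    exact (hr2 i).symm
  -- second moment
  have hT2 : ∑ i, ∑ j, r i * r j * (t i j) ^ 2 ≤ n := by
    have h1 : ∀ i j, r i * r j * (t i j) ^ 2 ≤ (r i ^ 2 * t i j ^ 2 + r j ^ 2 * t i j ^ 2) / 2 := by
      intro i j
      nlinarith [mul_nonneg (sq_nonneg (r i - r j)) (sq_nonneg (t i j))]
    have h2 : ∀ i, ∑ j, r j ^ 2 * t i j ^ 2 ≤ 1 := by
      intro i
      by_cases h : r i = 0
      · have : ∀ j, t i j = 0 := by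
          intro j; simp only [t, y]; simp [h]
        simp [this]
      · have h3 := hPP i
        have h4 : ∑ j, P i j ^ 2 = r i ^ 2 * ∑ j, r j ^ 2 * t i j ^ 2 := by
          rw [Finset.mul_sum]
          apply Finset.sum_congr rfl; intro j _
          rw [hPt]; ring
        rw [h4] at h3
        have h5 : r i ^ 2 * ∑ j, r j ^ 2 * t i j ^ 2 = r i ^ 2 * 1 := by linarith
        exact (mul_left_cancel₀ (pow_ne_zero 2 h) h5).le
    have h3 : ∑ i, ∑ j, r j ^ 2 * t i j ^ 2 ≤ n := by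
      calc ∑ i, ∑ j, r j ^ 2 * t i j ^ 2 ≤ ∑ i : V, (1 : ℝ) := Finset.sum_le_sum fun i _ => h2 i
        _ = n := by simp [hn]
    have hts : ∀ i j, t i j = t j i := by
      intro i j; simp only [t]; apply Finset.sum_congr rfl; intro a _; ring
    have h4 : ∑ i, ∑ j, r i ^ 2 * t i j ^ 2 = ∑ i, ∑ j, r j ^ 2 * t i j ^ 2 := by
      rw [Finset.sum_comm]
      apply Finset.sum_congr rfl; intro i _
      apply Finset.sum_congr rfl; intro j _
      rw [hts j i]
    calc ∑ i, ∑ j, r i * r j * (t i j) ^ 2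
        ≤ ∑ i, ∑ j, (r i ^ 2 * t i j ^ 2 + r j ^ 2 * t i j ^ 2) / 2 :=
          Finset.sum_le_sum fun i _ => Finset.sum_le_sum fun j _ => h1 i j
      _ = (∑ i, ∑ j, r i ^ 2 * t i j ^ 2 + ∑ i, ∑ j, r j ^ 2 * t i j ^ 2) / 2 := by
          simp only [← Finset.sum_div, Finset.sum_add_distrib]
      _ ≤ n := by rw [h4]; linarith
  -- fourth moment
  set R : ℝ := ∑ i, r i with hR
  have hT4 := fourth r y (by omega) hunit
  rw [← hR] at hT4
  have hR2 : R ^ 2 ≤ n * k := by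
    have h1 := Finset.sum_mul_sq_le_sq_mul_sq Finset.univ (fun _ : V => (1 : ℝ)) r
    have h2 : ∑ i, r i ^ 2 = k := by
      simp only [hr2]
      rw [Finset.sum_comm]
      have : ∀ a, ∑ i, x a i ^ 2 = 1 := by
        intro a; simpa [sq] using hx a a
      simp [this]
    rw [h2] at h1
    simpa [hR, hn] using h1
  have hR20 : 0 ≤ R ^ 2 := sq_nonneg _
  -- combine
  have hpt : ∀ i j, |P i j| ≤ q * (1 + 2 * q) / (2 * (1 + q) ^ 2) * (r i * r j)
      + (3 * q ^ 2 + 2 * q + 1) / (2 * q * (1 + q) ^ 2) * (r i * r j * t i j ^ 2)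
      - 1 / (2 * q * (1 + q) ^ 2) * (r i * r j * (t i j) ^ 4) := by
    intro i j
    have hrr : 0 ≤ r i * r j := mul_nonneg (hr0 i) (hr0 j)
    have h := mul_le_mul_of_nonneg_left (quartic q |t i j| hq (ht1 i j) (abs_nonneg _)) hrr
    rw [hPt, abs_mul, abs_of_nonneg hrr]
    refine h.trans (le_of_eq ?_)
    have e2 : |t i j| ^ 2 = t i j ^ 2 := sq_abs _
    have e4 : |t i j| ^ 4 = t i j ^ 4 := by
      calc |t i j| ^ 4 = (|t i j| ^ 2) ^ 2 := by ring
        _ = t i j ^ 4 := by rw [e2]; ring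
    rw [e2, e4]; ring
  have hsum : ∑ i, ∑ j, |P i j| ≤ q * (1 + 2 * q) / (2 * (1 + q) ^ 2) * R ^ 2
      + (3 * q ^ 2 + 2 * q + 1) / (2 * q * (1 + q) ^ 2) * (∑ i, ∑ j, r i * r j * t i j ^ 2)
      - 1 / (2 * q * (1 + q) ^ 2) * (∑ i, ∑ j, r i * r j * (t i j) ^ 4) := by
    have hRR : R ^ 2 = ∑ i, ∑ j, r i * r j := by rw [sq, hR, Finset.sum_mul_sum]
    rw [hRR]
    simp only [Finset.mul_sum, ← Finset.sum_add_distrib, ← Finset.sum_sub_distrib]
    exact Finset.sum_le_sum fun i _ => Finset.sum_le_sum fun j _ => hpt i j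
  have hq1 : q < 1 := by
    by_contra hcon
    push Not at hcon
    nlinarith [mul_pos hq hq]
  have hden : 0 < 2 * q * (1 + q) ^ 2 := by positivity
  have hB : 0 ≤ (3 * q ^ 2 + 2 * q + 1) / (2 * q * (1 + q) ^ 2) := by positivity
  have hG : 0 ≤ 1 / (2 * q * (1 + q) ^ 2) := by positivity
  have s1 : (3 * q ^ 2 + 2 * q + 1) / (2 * q * (1 + q) ^ 2) * (∑ i, ∑ j, r i * r j * t i j ^ 2)
      ≤ (3 * q ^ 2 + 2 * q + 1) / (2 * q * (1 + q) ^ 2) * n := mul_le_mul_of_nonneg_left hT2 hB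
  have s2 : 1 / (2 * q * (1 + q) ^ 2) * (3 / ((k : ℝ) * (k + 2)) * R ^ 2)
      ≤ 1 / (2 * q * (1 + q) ^ 2) * (∑ i, ∑ j, r i * r j * (t i j) ^ 4) :=
    mul_le_mul_of_nonneg_left hT4 hG
  have hkk : (k : ℝ) + 2 = 1 / q ^ 2 := by
    field_simp; linarith
  have hkk' : (k : ℝ) = 1 / q ^ 2 - 2 := by linarith
  -- coefficient of R^2
  have hcoef : 0 ≤ q * (1 + 2 * q) / (2 * (1 + q) ^ 2)
      - 1 / (2 * q * (1 + q) ^ 2) * (3 / ((k : ℝ) * (k + 2))) := by
    have e : q * (1 + 2 * q) / (2 * (1 + q) ^ 2)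
      - 1 / (2 * q * (1 + q) ^ 2) * (3 / ((k : ℝ) * (k + 2)))
      = (q ^ 2 * (k + 2) * (1 + 2 * q) * k - 3) / (2 * q * (1 + q) ^ 2 * (k * (k + 2))) := by
      field_simp
    rw [e, hq2]
    apply div_nonneg _ (by positivity)
    by_cases h3 : (3 : ℝ) ≤ k
    · nlinarith [mul_pos hq hkpos]
    · have hk3 : k = 2 := by
        have : k < 3 := by
          by_contra hcon
          push Not at hcon
          exact h3 (by exact_mod_cast hcon)
        omega
      have hq12 : q = 1 / 2 := by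
        rw [hk3] at hq2
        push_cast at hq2
        nlinarith [mul_pos hq hq]
      rw [hk3, hq12]
      norm_num
  have hfinal : (q * (1 + 2 * q) / (2 * (1 + q) ^ 2)
      - 1 / (2 * q * (1 + q) ^ 2) * (3 / ((k : ℝ) * (k + 2)))) * (n * k)
      + (3 * q ^ 2 + 2 * q + 1) / (2 * q * (1 + q) ^ 2) * n
      = (1 + 2 * q) * (1 - q) / (q * (1 + q)) * n := by
    have hkne : (k : ℝ) ≠ 0 := hkpos.ne'
    have hk2ne : (k : ℝ) + 2 ≠ 0 := by positivity
    have e3 : (1 / (2 * q * (1 + q) ^ 2) * (3 / ((k : ℝ) * (k + 2)))) * (n * k)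
        = 3 * q ^ 2 / (2 * q * (1 + q) ^ 2) * n := by
      rw [hkk]; field_simp
    rw [sub_mul, e3]
    have e4 : q * (1 + 2 * q) / (2 * (1 + q) ^ 2) * (n * k)
        = (1 + 2 * q) * (1 - 2 * q ^ 2) / (2 * q * (1 + q) ^ 2) * n := by
      rw [hkk']; field_simp
    rw [e4]
    have h1q : (1 + q) ≠ 0 := by positivity
    field_simp
    ring
  calc ∑ i, ∑ j, |∑ a, x a i * x a j| = ∑ i, ∑ j, |P i j| := rfl
    _ ≤ _ := hsum
    _ ≤ (q * (1 + 2 * q) / (2 * (1 + q) ^ 2)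
      - 1 / (2 * q * (1 + q) ^ 2) * (3 / ((k : ℝ) * (k + 2)))) * R ^ 2
      + (3 * q ^ 2 + 2 * q + 1) / (2 * q * (1 + q) ^ 2) * n := by
        have : (q * (1 + 2 * q) / (2 * (1 + q) ^ 2)
          - 1 / (2 * q * (1 + q) ^ 2) * (3 / ((k : ℝ) * (k + 2)))) * R ^ 2
          = q * (1 + 2 * q) / (2 * (1 + q) ^ 2) * R ^ 2
          - 1 / (2 * q * (1 + q) ^ 2) * (3 / ((k : ℝ) * (k + 2)) * R ^ 2) := by ring
        rw [this]; linarith
    _ ≤ (q * (1 + 2 * q) / (2 * (1 + q) ^ 2)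
      - 1 / (2 * q * (1 + q) ^ 2) * (3 / ((k : ℝ) * (k + 2)))) * (n * k)
      + (3 * q ^ 2 + 2 * q + 1) / (2 * q * (1 + q) ^ 2) * n := by
        have := mul_le_mul_of_nonneg_left hR2 hcoef
        linarith
    _ = _ := hfinal

end Pool.Agent.Helper91.Gen
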